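import Pool.Agent.H70.EP.Targets

/-!
# The oracle built from the copies exists
-/

set_option autoImplicit false

namespace Pool.Agent.H35.EP

open Finset Pool.Agent.H6.NB Pool.Agent.H70.OQ Pool.Agent.H70.EH Pool.Agent.H70.EI
open Pool.Agent.H70.EP

lemma pos_inj (h2 : Pool.Agent.H6.NB.T_COD) {s s' : List Bool}
    {u : Fin (2 * s.length) → Bool} {u' : Fin (2 * s'.length) → Bool}
    {v v' : List Bool} {b b' : Bool}
    (h : pos s (List.ofFn u) v b = pos s' (List.ofFn u') v' b') :
    s = s' ∧ HEq u u' ∧ v = v' ∧ b = b' := by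
  unfold pos at h
  obtain ⟨a, c, d⟩ := h2.1 _ _ _ _ _ _ h
  subst a
  have e := List.append_inj c (by simp)
  refine ⟨rfl, heq_of_eq (List.ofFn_injective e.1), e.2, ?_⟩
  cases b <;> cases b' <;> simp at d ⊢

/-- the indices of the positions -/
abbrev Ax (V : ℕ → ATM) (E : Finset (ℕ × List Bool)) : Type :=
  Σ i : {a // a ∈ E}, (Fin (2 * (hm V i.1).length) → Bool) × VV (qs (hm V i.1))

/-- the position with a given index -/
def px (V : ℕ → ATM) (E : Finset (ℕ × List Bool)) (a : Ax V E) : List Bool :=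
  pos (hm V a.1.1) (List.ofFn a.2.1) (List.ofFn a.2.2.2) a.2.2.1

open Classical in
/-- the seed -/
noncomputable def sd3 (V : ℕ → ATM) (E : Finset (ℕ × List Bool))
    (P : ∀ i : {a // a ∈ E}, Cp V i.1) : List Bool → Bool := fun w =>
  if h : ∃ a : Ax V E, w = px V E a then P h.choose.1 h.choose.2.1 h.choose.2.2 else false

lemma px_inj (h2 : Pool.Agent.H70.EI.T_HMX) (h3 : Pool.Agent.H6.NB.T_COD) (V : ℕ → ATM)
    (E : Finset (ℕ × List Bool)) (a b : Ax V E) (h : px V E a = px V E b) : a = b := by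
  obtain ⟨i, u, v⟩ := a
  obtain ⟨i', u', v'⟩ := b
  obtain ⟨h4, h5, h6, h7⟩ := pos_inj h3 h
  have hi : i = i' := Subtype.ext (h2.1 V _ _ h4)
  subst hi
  have hu : u = u' := eq_of_heq h5
  subst hu
  have hv : v = v' := Prod.ext h7 (List.ofFn_injective h6)
  subst hv
  rfl

lemma sd3_px (h2 : Pool.Agent.H70.EI.T_HMX) (h3 : Pool.Agent.H6.NB.T_COD) (V : ℕ → ATM)
    (E : Finset (ℕ × List Bool)) (P : ∀ i : {a // a ∈ E}, Cp V i.1) (a : Ax V E) :
    sd3 V E P (px V E a) = P a.1 a.2.1 a.2.2 := by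
  unfold sd3
  have hx : ∃ b : Ax V E, px V E a = px V E b := ⟨a, rfl⟩
  rw [dif_pos hx]
  have hs := hx.choose_spec
  have h4 := px_inj h2 h3 V E _ _ hs
  rw [← h4]

theorem is3 (h1 : T_BL3) (h2 : Pool.Agent.H70.EI.T_HMX) (h3 : Pool.Agent.H6.NB.T_COD) :
    T_IS3 := by
  classical
  intro V prog hsm E
  choose O hO1 hO2 using h1 prog hsm
  refine ⟨fun P => O (sd3 V E P), ?_, fun P => hO1 _, ?_⟩
  · intro P i u
    funext v
    have h4 : ∀ s, px V E ⟨i, u, v⟩ ≠ false :: s := by
      intro s hs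
      obtain ⟨w, hw⟩ := h2.2.1 V i.1 (List.ofFn u) (List.ofFn v.2) v.1
      have h5 : px V E ⟨i, u, v⟩ = true :: w := hw
      rw [h5] at hs
      simp at hs
    have h6 := hO2 (sd3 V E P) (px V E ⟨i, u, v⟩) h4
    rw [sd3_px h2 h3] at h6
    exact h6
  · intro P i u w hw
    by_cases hx : ∃ a : Ax V E, w = px V E a
    · obtain ⟨⟨i', u', v'⟩, rfl⟩ := hx
      by_cases hi : i' = i
      · subst hi
        by_cases hu : u' = u
        · subst hu
          right
          refine ⟨v', fun c => ?_⟩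
          simp only
          rw [hO2 _ _ hw, sd3_px h2 h3]
          simp only
          rw [Function.update_self, Function.update_self]
        · left
          refine ⟨P i' u' v', fun c => ?_⟩
          simp only
          rw [hO2 _ _ hw, sd3_px h2 h3]
          simp only
          rw [Function.update_self, Function.update_of_ne hu]
      · left
        refine ⟨P i' u' v', fun c => ?_⟩
        simp only
        rw [hO2 _ _ hw, sd3_px h2 h3]
        simp only
        rw [Function.update_of_ne hi]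
    · left
      refine ⟨false, fun c => ?_⟩
      simp only
      rw [hO2 _ _ hw]
      unfold sd3
      rw [dif_neg hx]

end Pool.Agent.H35.EP
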