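import Pool.Agent.H70.EP.Targets

/-!
# The strings of the oracle and the answers as functions of the variables
-/

set_option autoImplicit false

namespace Pool.Agent.H35.EP

open Finset Pool.Agent.H6.NB Pool.Agent.H70.OQ Pool.Agent.H70.EH Pool.Agent.H70.EI
open Pool.Agent.H70.EP

lemma pow_big (L : ℕ) (hL : 5 ≤ L) : 3 * L + 8 ≤ 2 ^ L := by
  induction L, hL using Nat.le_induction with
  | base => norm_num
  | succ L hL ih => rw [pow_succ]; omega

lemma log_bound (r : ℕ) (hr : 20 ≤ r) : 3 * (Nat.log 2 r + 1) ≤ r - 5 := by
  have h1 : 2 ^ Nat.log 2 r ≤ r := Nat.pow_log_le_self 2 (by omega)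
  by_cases h : 5 ≤ Nat.log 2 r
  · have := pow_big _ h
    omega
  · omega

lemma depth_zero (T : Pool.Agent.H6.NB.DT) (h : T.depth = 0) : ∃ b, ∀ O, T.eval O = b := by
  cases T with
  | leaf b => exact ⟨b, fun _ => rfl⟩
  | node w l r => simp [Pool.Agent.H6.NB.DT.depth] at h

theorem kc3 (h1 : T_DT3) (h2 : Pool.Agent.H6.NB.T_CLB) (h3 : Pool.Agent.H6.NB.T_FIS) : T_KC3 := by
  classical
  intro X prog O r hsm hself hlib hr
  set S : ℕ := 2 ^ 2 ^ r with hS
  have hrr : r < 2 ^ r := Nat.lt_two_pow_self
  have hS2 : 2 ≤ S := by
    calc 2 = 2 ^ 1 := by norm_num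
      _ ≤ 2 ^ 2 ^ r := Nat.pow_le_pow_right (by norm_num) (by omega)
  obtain ⟨hc, hmono, -, hor, -⟩ := h2 X S hS2
  have h0 : ∀ w : List Bool, (∀ s, w ≠ false :: s) → ∀ d, Cl X S d fun y => O y w := by
    intro w hw d
    refine hmono 0 d _ (Nat.zero_le _) ?_
    exact hlib w hw
  have key : ∀ k : ℕ, ∀ w : List Bool, w.length ≤ 2 ^ r → w.length < 2 ^ 2 ^ k →
      Cl X S (3 * k) fun y => O y w := by
    intro k
    induction k with
    | zero =>
      intro w _ hw
      by_cases hs : ∃ s, w = false :: s
      · obtain ⟨s, rfl⟩ := hs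
        have hs0 : s = [] := by
          cases s with
          | nil => rfl
          | cons a s => simp at hw
        subst hs0
        have hd : (prog [] []).depth = 0 := by
          have := (hsm [] [] (by simp)).1
          simpa using this
        obtain ⟨b, hb⟩ := depth_zero _ hd
        have hO : ∀ y, O y [false] = b := by
          intro y
          rw [Bool.eq_iff_iff, hself y []]
          constructor
          · rintro ⟨w', hw', he⟩
            have : w' = [] := by
              cases w' with
              | nil => rfl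
              | cons a s => simp at hw'
            subst this
            rw [hb] at he
            exact he
          · intro h
            exact ⟨[], by simp, by rw [hb]; exact h⟩
        exact Or.inl ⟨b, hO⟩
      · push Not at hs
        exact h0 w hs _
    | succ k ih =>
      intro w hwr hw
      by_cases hs : ∃ s, w = false :: s
      · obtain ⟨s, rfl⟩ := hs
        rw [List.length_cons] at hwr hw
        have hk2 : 2 ^ 2 ^ (k + 1) = (2 ^ 2 ^ k) ^ 2 := by
          rw [← pow_mul, pow_succ]
        rw [hk2] at hw
        obtain ⟨Ws, hWs, hWm⟩ := h3.1 (Nat.sqrt s.length)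
        have hsq : Nat.sqrt s.length ≤ s.length := Nat.sqrt_le_self _
        refine hor (3 * k + 2) ((Ws.filter fun w' => w'.length ^ 2 ≤ s.length).map
          fun w' => (fun y => (prog s w').eval (O y), true)) _ ?_ ?_ ?_
        · rw [List.length_map]
          refine (List.length_filter_le _ _).trans (hWs.trans ?_)
          exact Nat.pow_le_pow_right (by norm_num) (by omega)
        · intro c hc'
          rw [List.mem_map] at hc'
          obtain ⟨w', hw', rfl⟩ := hc'
          have hw2 : w'.length ^ 2 ≤ s.length := by
            have := (List.mem_filter.1 hw').2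
            simpa using this
          obtain ⟨hdep, m, hm, hsh⟩ := hsm s w' hw2
          have hd1 : (prog s w').depth ≤ s.length := by nlinarith
          have hm1 : m ≤ s.length := by nlinarith
          have hm2 : m < 2 ^ 2 ^ k := lt_of_pow_lt_pow_left₀ 2 (Nat.zero_le _) (by omega)
          refine h1 X S (prog s w').depth m (3 * k) (prog s w') O hS2 ?_ ?_ le_rfl hsh ?_
          · have := Nat.lt_two_pow_self (n := 2 ^ r)
            omega
          · exact Nat.pow_le_pow_right (by norm_num) (by omega)
          · intro w'' hw''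
            exact ih w'' (by omega) (by omega)
        · intro y
          rw [hself y s]
          constructor
          · rintro ⟨w', hw', he⟩
            refine ⟨(fun y => (prog s w').eval (O y), true), ?_, he⟩
            rw [List.mem_map]
            refine ⟨w', List.mem_filter.2 ⟨hWm w' ?_, by simpa using hw'⟩, rfl⟩
            rw [Nat.le_sqrt']
            exact hw'
          · rintro ⟨c, hc', he⟩
            rw [List.mem_map] at hc'
            obtain ⟨w', hw', rfl⟩ := hc'
            have := (List.mem_filter.1 hw').2
            exact ⟨w', by simpa using this, he⟩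
      · push Not at hs
        exact h0 w hs _
  intro w hw
  refine hmono _ _ _ (log_bound r hr) (key _ w hw ?_)
  have h5 : r < 2 ^ (Nat.log 2 r + 1) := Nat.lt_pow_succ_log_self (by norm_num) r
  calc w.length ≤ 2 ^ r := hw
    _ < 2 ^ 2 ^ (Nat.log 2 r + 1) := Nat.pow_lt_pow_right (by norm_num) h5

theorem ac3 (h1 : T_KC3) (h2 : T_DT3) (h3 : Pool.Agent.H70.EH.T_ALC)
    (h4 : Pool.Agent.H6.NB.T_CLB) : T_AC3 := by
  classical
  intro V X prog O r p hsm hself hlib hr
  unfold sk scale at hr
  have hr20 : 20 ≤ r := by omega
  set M := V p.1 with hM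
  set t := M.time p.2.length with ht
  set S : ℕ := 2 ^ 2 ^ r with hS
  have hrr : r < 2 ^ r := Nat.lt_two_pow_self
  have hS2 : 2 ≤ S := by
    calc 2 = 2 ^ 1 := by norm_num
      _ ≤ 2 ^ 2 ^ r := Nat.pow_le_pow_right (by norm_num) (by omega)
  have htr : t < 2 ^ r := by
    calc t < 2 ^ (Nat.log 2 t + 1) := Nat.lt_pow_succ_log_self (by norm_num) t
      _ ≤ 2 ^ r := Nat.pow_le_pow_right (by norm_num) (by omega)
  have h5 := h3 X S t (r - 3) (M.alt p.2.length) (fun ws y => (M.tree p.2 ws).eval (O y)) hS2
    (Nat.pow_le_pow_right (by norm_num) (by omega)) (by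
      intro ws hws hws2
      have h6 := h2 X S t t (r - 5) (M.tree p.2 ws) O hS2 (by
        have := Nat.lt_two_pow_self (n := 2 ^ r)
        omega) (Nat.pow_le_pow_right (by norm_num) htr.le) (M.depth_le p.2 ws hws hws2)
        (M.short p.2 ws hws hws2) (fun w hw => h1 X prog O r hsm hself hlib hr20 w (by omega))
      rwa [show r - 5 + 2 = r - 3 by omega] at h6)
  refine (h4 X S hS2).2.1 _ _ _ (by omega) (?_ : Cl X S (r - 3 + M.alt p.2.length + 1) _)
  convert h5 using 2
  exact decide_eq_decide.2 Iff.rfl

end Pool.Agent.H35.EP
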