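import Pool.Agent.H70.EP.Targets

/-!
# Estimates for the error terms (adapted from the module NUM of helper4)
-/

set_option autoImplicit false

namespace Pool.Agent.H35.EP

open Finset Pool.Agent.H6.NB Pool.Agent.H70.EP

theorem NUM.base (r : ℕ) : ((128 : ℝ) * 4 ^ r) ^ (2 * (2 * r + 2)) = 2 ^ (8 * r ^ 2 + 36 * r + 28) := by
  have h : ((128 : ℝ) * 4 ^ r) = 2 ^ (7 + 2 * r) := by
    rw [pow_add, pow_mul]; norm_num
  rw [h, ← pow_mul]
  congr 1
  ring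

theorem NUM.sqrt2 (l : ℕ) : √((2 : ℝ) ^ (10 * l + 100)) = 2 ^ (5 * l + 50) := by
  have h : 10 * l + 100 = (5 * l + 50) * 2 := by ring
  rw [h, pow_mul, Real.sqrt_sq (by positivity)]

theorem NUM.four (l : ℕ) : (1 / 4 : ℝ) ^ l / 8 = 1 / 2 ^ (2 * l + 3) := by
  rw [one_div_pow, pow_add, pow_mul]
  norm_num
  ring

/-- quotients of powers of two -/
theorem NUM.quot (a b c : ℕ) (h : a + c ≤ b) : (2 : ℝ) ^ a / 2 ^ b ≤ 1 / 2 ^ c := by
  rw [div_le_div_iff₀ (by positivity) (by positivity), ← pow_add, one_mul]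
  exact pow_le_pow_right₀ (by norm_num) h

theorem NUM.big (r : ℕ) (hr : 20 ≤ r) : 1000 * (r + 1) ^ 2 ≤ 2 ^ r := by
  induction r, hr using Nat.le_induction with
  | base => norm_num
  | succ r hr ih =>
    rw [pow_succ 2 r]
    have h : (r + 1 + 1) ^ 2 ≤ 2 * (r + 1) ^ 2 := by nlinarith
    omega

theorem NUM.poly (l : ℕ) (hl : 40 ≤ l) : 8192 * (10 * l + 103) ^ 2 ≤ 2 ^ l := by
  induction l, hl using Nat.le_induction with
  | base => norm_num
  | succ l hl ih =>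
    rw [pow_succ 2 l]
    have h : (10 * (l + 1) + 103) ^ 2 ≤ 2 * (10 * l + 103) ^ 2 := by nlinarith
    omega

theorem NUM.exps (r l : ℕ) (hr : 20 ≤ r) (hl : l ≤ 16 * (r + 1) ^ 3) :
    2 ^ r * (2 * r + 3) + 24 * l + 8 * r ^ 2 + 39 * r + 237 ≤ 4 ^ r := by
  have h1 := NUM.big r hr
  have h2 : 4 ^ r = 2 ^ r * 2 ^ r := by rw [← mul_pow]; norm_num
  rw [h2]
  set T := 2 ^ r with hT
  have h3 : T * (1000 * (r + 1) ^ 2) ≤ T * T := Nat.mul_le_mul_left T h1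
  have h4 : 1000 * (r + 1) ^ 2 * (900 * (r + 1) ^ 2) ≤ T * (900 * (r + 1) ^ 2) :=
    Nat.mul_le_mul_right _ h1
  have h5 : T * (1000 * (r + 1) ^ 2) = T * (2 * r + 3) + T * (900 * (r + 1) ^ 2) +
      T * (100 * r ^ 2 + 198 * r + 97) := by ring
  have h6 : (r + 1) ^ 3 ≤ (r + 1) ^ 4 := Nat.pow_le_pow_right (by omega) (by norm_num)
  have h7 : (r + 1) ^ 2 ≤ (r + 1) ^ 4 := Nat.pow_le_pow_right (by omega) (by norm_num)
  have h8 : 1000 * (r + 1) ^ 2 * (900 * (r + 1) ^ 2) = 900000 * (r + 1) ^ 4 := by ring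
  have h9 : (r + 1) ^ 2 = r ^ 2 + 2 * r + 1 := by ring
  rw [h8] at h4
  have h10 : 0 ≤ T * (100 * r ^ 2 + 198 * r + 97) := Nat.zero_le _
  rw [h9] at h7
  omega

theorem nu3 : Pool.Agent.H70.EP.T_NU3 := by
  intro r l hr hl1 hl2
  have hr2 : 20 * r ≤ r ^ 2 := by nlinarith
  have hr3 : 20 * r ^ 2 ≤ r ^ 3 := by nlinarith [sq_nonneg r]
  have hl40 : 40 ≤ l := by omega
  have hrl : r ≤ l := by omega
  have hLam : Lam r = 2 ^ (8 * r ^ 2 + 40 * r + 28) := by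
    unfold Lam
    rw [NUM.base]
    have h4 : ((4 : ℝ) ^ r) ^ 2 = 2 ^ (4 * r) := by
      rw [← pow_mul, show (4 : ℝ) = 2 ^ 2 by norm_num, ← pow_mul]
      congr 1; ring
    rw [h4, ← pow_add]
    congr 1; ring
  refine ⟨?_, ?_, ?_⟩
  · rw [hLam, NUM.sqrt2]
    exact pow_le_pow_right₀ (by norm_num) (by omega)
  · rw [hLam, NUM.sqrt2, NUM.four, ← mul_div_assoc, ← pow_add]
    exact NUM.quot _ _ _ (by omega)
  · rw [NUM.four]
    have t1 : (2 : ℝ) ^ 2 ^ r * ((2 : ℝ) ^ (2 * l) * Tau r (10 * l + 100)) ≤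
        1 / 2 ^ (2 * l + 5) := by
      unfold Tau
      rw [NUM.base]
      have e1 : ((2 : ℝ) * 2 ^ (10 * l + 100)) ^ 2 = 2 ^ (20 * l + 202) := by
        rw [← pow_succ', ← pow_mul]
        congr 1; ring
      have e2 : ((2 : ℝ) ^ 2 ^ r + 1) ^ (2 * r + 2) ≤ 2 ^ ((2 ^ r + 1) * (2 * r + 2)) := by
        rw [pow_mul]
        refine pow_le_pow_left₀ (by positivity) ?_ _
        rw [pow_succ]
        have : (1 : ℝ) ≤ 2 ^ 2 ^ r := one_le_pow₀ (by norm_num)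
        linarith
      rw [e1]
      calc (2 : ℝ) ^ 2 ^ r * ((2 : ℝ) ^ (2 * l) * (2 ^ (8 * r ^ 2 + 36 * r + 28) *
            (2 ^ (20 * l + 202) * ((2 : ℝ) ^ 2 ^ r + 1) ^ (2 * r + 2) / 2 ^ 4 ^ r)))
          ≤ (2 : ℝ) ^ 2 ^ r * ((2 : ℝ) ^ (2 * l) * (2 ^ (8 * r ^ 2 + 36 * r + 28) *
            (2 ^ (20 * l + 202) * 2 ^ ((2 ^ r + 1) * (2 * r + 2)) / 2 ^ 4 ^ r))) := by gcongr
        _ = 2 ^ (2 ^ r + (2 * l + (8 * r ^ 2 + 36 * r + 28 + (20 * l + 202 +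
            (2 ^ r + 1) * (2 * r + 2))))) / 2 ^ 4 ^ r := by
            rw [pow_add, pow_add, pow_add, pow_add]
            ring
        _ ≤ _ := by
            refine NUM.quot _ _ _ ?_
            have e3 := NUM.exps r l hr hl2
            have e4 : 2 ^ r + (2 * l + (8 * r ^ 2 + 36 * r + 28 + (20 * l + 202 +
                (2 ^ r + 1) * (2 * r + 2)))) + (2 * l + 5) =
                2 ^ r * (2 * r + 3) + 24 * l + 8 * r ^ 2 + 38 * r + 237 := by ring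
            omega
    have t2 : (2 : ℝ) ^ 2 ^ r * ((2 : ℝ) ^ (2 * l) * (1 / 2 ^ 2 ^ (10 * l + 100 - 2))) ≤
        1 / 2 ^ (2 * l + 5) := by
      have e1 : (2 : ℝ) ^ 2 ^ r * ((2 : ℝ) ^ (2 * l) * (1 / 2 ^ 2 ^ (10 * l + 100 - 2))) =
          2 ^ (2 ^ r + 2 * l) / 2 ^ 2 ^ (10 * l + 100 - 2) := by
        rw [pow_add]; ring
      rw [e1]
      refine NUM.quot _ _ _ ?_
      have e2 : 2 ^ r ≤ 2 ^ l := Nat.pow_le_pow_right (by norm_num) hrl
      have e3 : 4 * l + 5 < 2 ^ (4 * l + 5) := Nat.lt_two_pow_self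
      have e4 : 2 ^ l ≤ 2 ^ (4 * l + 5) := Nat.pow_le_pow_right (by norm_num) (by omega)
      have e5 : 2 ^ (4 * l + 6) ≤ 2 ^ (10 * l + 100 - 2) :=
        Nat.pow_le_pow_right (by norm_num) (by omega)
      have e6 : 2 ^ (4 * l + 6) = 2 * 2 ^ (4 * l + 5) := by rw [pow_succ' 2 (4 * l + 5)]
      omega
    have t3 : (2 : ℝ) ^ 2 ^ r *
        Real.exp (-((2 : ℝ) ^ (2 * l) * eps2 (10 * l + 100) ^ 2 / 64)) ≤
        1 / 2 ^ (2 * l + 5) := by
      have e1 : ((2 ^ r + 2 * l + 5 : ℕ) : ℝ) ≤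
          (2 : ℝ) ^ (2 * l) * eps2 (10 * l + 100) ^ 2 / 64 := by
        have f1 : 4096 * (10 * l + 103) ^ 2 * (2 ^ r + 2 * l + 5) ≤ 4 ^ l := by
          have g1 := NUM.poly l hl40
          have g2 : 2 ^ r ≤ 2 ^ l := Nat.pow_le_pow_right (by norm_num) hrl
          have g3 : 2 * l + 5 ≤ 8192 * (10 * l + 103) ^ 2 := by
            have : (10 * l + 103) ^ 2 = 100 * l ^ 2 + 2060 * l + 10609 := by ring
            omega
          have g4 : 2 ^ r + 2 * l + 5 ≤ 2 * 2 ^ l := by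
            generalize 2 ^ r = R at g2 ⊢
            generalize 2 ^ l = L at g1 g2 ⊢
            omega
          have g5 : (4 : ℕ) ^ l = 2 ^ l * 2 ^ l := by rw [← mul_pow]; norm_num
          calc 4096 * (10 * l + 103) ^ 2 * (2 ^ r + 2 * l + 5)
              ≤ 4096 * (10 * l + 103) ^ 2 * (2 * 2 ^ l) := Nat.mul_le_mul_left _ g4
            _ = 8192 * (10 * l + 103) ^ 2 * 2 ^ l := by ring
            _ ≤ 2 ^ l * 2 ^ l := Nat.mul_le_mul_right _ g1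
            _ = 4 ^ l := g5.symm
        have f2 : (4096 * (10 * l + 103) ^ 2 : ℝ) * ((2 ^ r + 2 * l + 5 : ℕ) : ℝ) ≤ 4 ^ l := by
          exact_mod_cast f1
        have f3 : (2 : ℝ) ^ (2 * l) * eps2 (10 * l + 100) ^ 2 / 64 =
            4 ^ l / (4096 * (10 * l + 103) ^ 2) := by
          unfold eps2
          rw [pow_mul]
          push_cast
          rw [show (10 * (l : ℝ) + 100 + 3) = 10 * l + 103 by ring]
          field_simp
          norm_num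
          ring
        rw [f3, le_div_iff₀ (by positivity)]
        linarith
      have e2 : Real.exp (-((2 : ℝ) ^ (2 * l) * eps2 (10 * l + 100) ^ 2 / 64)) ≤
          1 / 2 ^ (2 ^ r + 2 * l + 5) := by
        have f4 : Real.exp (-((2 : ℝ) ^ (2 * l) * eps2 (10 * l + 100) ^ 2 / 64)) ≤
            Real.exp (-((2 ^ r + 2 * l + 5 : ℕ) : ℝ)) := Real.exp_le_exp.2 (by linarith)
        refine f4.trans ?_
        rw [Real.exp_neg, ← one_div]
        refine one_div_le_one_div_of_le (by positivity) ?_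
        have f5 : (2 : ℝ) ≤ Real.exp 1 := by
          have := Real.add_one_le_exp (1 : ℝ)
          linarith
        have f6 := pow_le_pow_left₀ (by norm_num) f5 (2 ^ r + 2 * l + 5)
        rw [← Real.exp_nat_mul, mul_one] at f6
        exact f6
      calc (2 : ℝ) ^ 2 ^ r *
          Real.exp (-((2 : ℝ) ^ (2 * l) * eps2 (10 * l + 100) ^ 2 / 64)) ≤
          (2 : ℝ) ^ 2 ^ r * (1 / 2 ^ (2 ^ r + 2 * l + 5)) :=
            mul_le_mul_of_nonneg_left e2 (by positivity)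
        _ = 2 ^ 2 ^ r / 2 ^ (2 ^ r + 2 * l + 5) := by ring
        _ ≤ _ := NUM.quot _ _ _ (by omega)
    have t4 : (1 : ℝ) / 2 ^ (2 * l + 3) = 4 * (1 / 2 ^ (2 * l + 5)) := by
      rw [show 2 * l + 5 = (2 * l + 3) + 2 by ring, pow_add (2 : ℝ) (2 * l + 3) 2]
      field_simp
      norm_num
    have t5 : 0 ≤ (1 : ℝ) / 2 ^ (2 * l + 5) := by positivity
    rw [t4]
    have t6 : (2 : ℝ) ^ 2 ^ r * ((2 : ℝ) ^ (2 * l) * (Tau r (10 * l + 100) +
        1 / 2 ^ 2 ^ (10 * l + 100 - 2)) +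
        Real.exp (-((2 : ℝ) ^ (2 * l) * eps2 (10 * l + 100) ^ 2 / 64))) =
        (2 : ℝ) ^ 2 ^ r * ((2 : ℝ) ^ (2 * l) * Tau r (10 * l + 100)) +
        (2 : ℝ) ^ 2 ^ r * ((2 : ℝ) ^ (2 * l) * (1 / 2 ^ 2 ^ (10 * l + 100 - 2))) +
        (2 : ℝ) ^ 2 ^ r *
          Real.exp (-((2 : ℝ) ^ (2 * l) * eps2 (10 * l + 100) ^ 2 / 64)) := by
      generalize Tau r (10 * l + 100) = A
      generalize Real.exp (-((2 : ℝ) ^ (2 * l) * eps2 (10 * l + 100) ^ 2 / 64)) = B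
      generalize (1 : ℝ) / 2 ^ 2 ^ (10 * l + 100 - 2) = D
      generalize (2 : ℝ) ^ 2 ^ r = G
      generalize (2 : ℝ) ^ (2 * l) = H
      ring
    rw [t6]
    linarith

end Pool.Agent.H35.EP
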